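import Pool.Agent.H267R3.StarEquiv

/-!
# `MP_e8016c_co`: a quadratic upper bound for `g(k)`

If `K_k` and `K_k + K_{1,g}` are Ramsey-equivalent (`k ≥ 3`) then `g ≤ 2 (k - 1)^2`.
-/

open SimpleGraph

namespace Pool.Agent.Results.MP_e8016c_co.QuadraticUpper

/-- `G → H`: for every red/blue colouring of the edges of `G`, with red graph `R` and blue graph
`G \ R`, the red graph or the blue graph contains a copy of `H`. -/
def Arrows {V W : Type} (G : SimpleGraph V) (H : SimpleGraph W) : Prop :=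
  ∀ R : SimpleGraph V, R ≤ G → H.IsContained R ∨ H.IsContained (G \ R)

/-- `H₁` and `H₂` are Ramsey-equivalent: they are arrowed by the same finite graphs. -/
def RamseyEquiv {W₁ W₂ : Type} (H₁ : SimpleGraph W₁) (H₂ : SimpleGraph W₂) : Prop :=
  ∀ (V : Type) [Finite V] (G : SimpleGraph V), Arrows G H₁ ↔ Arrows G H₂

/-- `K_k + K_{1,g}`: the disjoint union of a complete graph and a star. -/
def cliqueAddStar (k g : ℕ) : SimpleGraph (Fin k ⊕ (Fin 1 ⊕ Fin g)) :=
  (⊤ : SimpleGraph (Fin k)) ⊕g completeBipartiteGraph (Fin 1) (Fin g)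

lemma star_connected (g : ℕ) : (completeBipartiteGraph (Fin 1) (Fin g)).Connected := by
  have h : ∀ v : Fin 1 ⊕ Fin g,
      (completeBipartiteGraph (Fin 1) (Fin g)).Reachable (Sum.inl 0) v := by
    rintro (a | b)
    · have : a = 0 := Subsingleton.elim _ _
      subst this
      exact SimpleGraph.Reachable.refl _
    · apply SimpleGraph.Adj.reachable
      simp
  exact { preconnected := fun u v => (h u).symm.trans (h v), nonempty := ⟨Sum.inl 0⟩ }

theorem result : ∀ k g : ℕ, 3 ≤ k →
    RamseyEquiv (⊤ : SimpleGraph (Fin k)) (cliqueAddStar k g) → g ≤ 2 * (k - 1) ^ 2 := by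
  intro k g hk h
  by_contra hg
  push Not at hg
  obtain ⟨n, rfl⟩ : ∃ n, k = n + 1 := ⟨k - 1, by omega⟩
  obtain ⟨V, hV, G, h1, h2⟩ := H267R3.StarEquiv.main n (by omega)
  refine h2 (Fin 1 ⊕ Fin g) (completeBipartiteGraph (Fin 1) (Fin g)) (star_connected g) ?_
    ((h V G).1 h1)
  simp only [Fintype.card_sum, Fintype.card_fin]
  simp only [Nat.add_sub_cancel] at hg
  omega

end Pool.Agent.Results.MP_e8016c_co.QuadraticUpper
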